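import Mathlib

-- part Pool.Agent.Lib.MP_583a9a_co.Lemmas
section

/-! General combinatorial lemmas for the bounded palette construction. -/

namespace Pool.Agent.Lib.MP_583a9a_co

open Finset

/-- Hall-type lemma for a clique of `N` vertices with lists of size at least `N + a`. -/
theorem hall_clique {D : Type*} [Fintype D] [DecidableEq D] (N a W : ℕ) (hN : Fintype.card D = N)
    (L : D → Finset ℕ) (hL : ∀ d, N + a ≤ (L d).card) (hW : 2 * W ≤ N) :
    ∃ U : Finset ℕ, U.card ≤ N + W ∧ ∀ F : Finset ℕ, F.card ≤ W → (F ∩ U).card ≤ a →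
      ∃ φ : D → ℕ, Function.Injective φ ∧ ∀ d, φ d ∈ L d ∧ φ d ∉ F := by
  have main : ∀ U : Finset ℕ,
      ((∃ X : Finset D, N < X.card + W ∧ U = X.biUnion L) ∨
        ¬ ∃ X : Finset D, N < X.card + W ∧ (X.biUnion L).card ≤ N + W) →
      ∀ F : Finset ℕ, F.card ≤ W → (F ∩ U).card ≤ a →
      ∃ φ : D → ℕ, Function.Injective φ ∧ ∀ d, φ d ∈ L d ∧ φ d ∉ F := by
    intro U hU F hF hFU
    have hall : ∀ s : Finset D, s.card ≤ (s.biUnion (fun d => L d \ F)).card := by
      intro s
      by_contra hlt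
      push Not at hlt
      have hsN : s.card ≤ N := hN ▸ s.card_le_univ
      have hne : s.Nonempty := by
        rw [← Finset.card_pos]; omega
      have hsub : ∀ d ∈ s, (L d \ F).card < s.card := fun d hd =>
        lt_of_le_of_lt (card_le_card (subset_biUnion_of_mem (fun d => L d \ F) hd)) hlt
      have hbig : N < s.card + W := by
        obtain ⟨d, hd⟩ := hne
        have h1 := hsub d hd
        have h2 := hL d
        have h3 := le_card_sdiff F (L d)
        omega
      rcases hU with ⟨X, hX, rfl⟩ | hno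
      · have hXN : (X ∪ s).card ≤ N := hN ▸ (X ∪ s).card_le_univ
        have hint : (X ∩ s).Nonempty := by
          rw [← Finset.card_pos]
          have := card_union_add_card_inter X s
          omega
        obtain ⟨d, hd⟩ := hint
        rw [mem_inter] at hd
        have h1 := hsub d hd.2
        have h2 := hL d
        have h3 : (L d ∩ F).card ≤ a := by
          refine le_trans (card_le_card ?_) hFU
          intro c hc
          rw [mem_inter] at hc ⊢
          exact ⟨hc.2, mem_biUnion.mpr ⟨d, hd.1, hc.1⟩⟩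
        have h4 := card_sdiff_add_card_inter (L d) F
        omega
      · apply hno
        refine ⟨s, hbig, ?_⟩
        have h1 : s.biUnion L ⊆ s.biUnion (fun d => L d \ F) ∪ F := by
          intro c hc
          rw [mem_biUnion] at hc
          obtain ⟨d, hd, hc⟩ := hc
          by_cases hcF : c ∈ F
          · exact mem_union_right _ hcF
          · exact mem_union_left _ (mem_biUnion.mpr ⟨d, hd, mem_sdiff.mpr ⟨hc, hcF⟩⟩)
        have h2 := card_le_card h1
        have h3 := card_union_le (s.biUnion (fun d => L d \ F)) F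
        omega
    obtain ⟨φ, hφ, hmem⟩ := (all_card_le_biUnion_card_iff_exists_injective _).mp hall
    exact ⟨φ, hφ, fun d => mem_sdiff.mp (hmem d)⟩
  by_cases h : ∃ X : Finset D, N < X.card + W ∧ (X.biUnion L).card ≤ N + W
  · obtain ⟨X, hX, hc⟩ := h
    exact ⟨X.biUnion L, hc, main _ (Or.inl ⟨X, hX, rfl⟩)⟩
  · exact ⟨∅, by simp, main _ (Or.inr h)⟩

/-- Two large lists can be coloured using at most one colour from each of two blockers. -/
theorem pair_lemma (A B X Y : Finset ℕ) (n s : ℕ) (hA : A.card ≤ n) (hB : B.card ≤ n)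
    (hX : s ≤ X.card) (hY : s ≤ Y.card) (h : 2 * n < 3 * s) :
    ∃ α ∈ X, ∃ β ∈ Y, (α ∈ A → β ∈ A → α = β) ∧ (α ∈ B → β ∈ B → α = β) := by
  by_cases hXY : ∃ c, c ∈ X ∧ c ∈ Y
  · obtain ⟨c, h1, h2⟩ := hXY
    exact ⟨c, h1, c, h2, fun _ _ => rfl, fun _ _ => rfl⟩
  have hdisj : Disjoint X Y := by
    rw [Finset.disjoint_left]
    intro c h1 h2
    exact hXY ⟨c, h1, h2⟩
  have hcu := card_union_of_disjoint hdisj
  have hnotA : ¬ (X ⊆ A ∧ Y ⊆ A) := by
    rintro ⟨h1, h2⟩
    have := card_le_card (union_subset h1 h2)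
    omega
  have hnotB : ¬ (X ⊆ B ∧ Y ⊆ B) := by
    rintro ⟨h1, h2⟩
    have := card_le_card (union_subset h1 h2)
    omega
  have hAB : ∀ P Q : Finset ℕ, s ≤ P.card → s ≤ Q.card → Disjoint P Q → P ⊆ A → P ⊆ B →
      ∃ β ∈ Q, β ∉ A ∧ β ∉ B := by
    intro P Q hP hQ hd h1 h2
    by_contra hc
    push Not at hc
    have h3 : P ∪ Q ⊆ A ∪ B := by
      intro c hc'
      rcases mem_union.mp hc' with h4 | h4
      · exact mem_union_left _ (h1 h4)
      · by_cases h5 : c ∈ A
        · exact mem_union_left _ h5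
        · exact mem_union_right _ (hc c h4 h5)
    have h4 := card_le_card h3
    have h5 := card_union_of_disjoint hd
    have h6 := card_union_add_card_inter A B
    have h7 : P.card ≤ (A ∩ B).card := card_le_card (subset_inter h1 h2)
    omega
  have hXne : X.Nonempty := by rw [← Finset.card_pos]; omega
  have hYne : Y.Nonempty := by rw [← Finset.card_pos]; omega
  by_cases h1 : X ⊆ A
  · by_cases h2 : X ⊆ B
    · obtain ⟨β, hβ, hβA, hβB⟩ := hAB X Y hX hY hdisj h1 h2
      obtain ⟨α, hα⟩ := hXne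
      exact ⟨α, hα, β, hβ, fun _ h => absurd h hβA, fun _ h => absurd h hβB⟩
    · have h3 : ¬ Y ⊆ A := fun h => hnotA ⟨h1, h⟩
      obtain ⟨α, hα, hαB⟩ := not_subset.mp h2
      obtain ⟨β, hβ, hβA⟩ := not_subset.mp h3
      exact ⟨α, hα, β, hβ, fun _ h => absurd h hβA, fun h _ => absurd h hαB⟩
  · by_cases h2 : Y ⊆ B
    · by_cases h3 : Y ⊆ A
      · obtain ⟨α, hα, hαA, hαB⟩ := hAB Y X hY hX hdisj.symm h3 h2
        obtain ⟨β, hβ⟩ := hYne
        exact ⟨α, hα, β, hβ, fun h _ => absurd h hαA, fun h _ => absurd h hαB⟩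
      · have h4 : ¬ X ⊆ B := fun h => hnotB ⟨h, h2⟩
        obtain ⟨α, hα, hαB⟩ := not_subset.mp h4
        obtain ⟨β, hβ, hβA⟩ := not_subset.mp h3
        exact ⟨α, hα, β, hβ, fun _ h => absurd h hβA, fun h _ => absurd h hαB⟩
    · obtain ⟨α, hα, hαA⟩ := not_subset.mp h1
      obtain ⟨β, hβ, hβB⟩ := not_subset.mp h2
      exact ⟨α, hα, β, hβ, fun h _ => absurd h hαA, fun _ h => absurd h hβB⟩

/-- Choice of a common colour for the vertices whose list lies inside the blocker. -/
theorem common_colour {V : Type*} (C : Finset V) (L : V → Finset ℕ) (A Bad : Finset ℕ) (s : ℕ)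
    (hL : ∀ v, s ≤ (L v).card) (hBad : Bad.card < s)
    (hsub : ∀ v ∈ C, L v ⊆ A → A \ L v ⊆ Bad) (α β : ℕ) (hα : α ∉ Bad) (hβ : β ∉ Bad)
    (hαβ : α ∈ A → β ∈ A → α = β) :
    ∃ c, (α ∈ A → α = c) ∧ (β ∈ A → β = c) ∧ ∀ v ∈ C, L v ⊆ A → c ∈ L v := by
  have key : ∀ c ∈ A, c ∉ Bad → ∀ v ∈ C, L v ⊆ A → c ∈ L v := by
    intro c hc hcB v hv hvA
    by_contra hn
    exact hcB (hsub v hv hvA (mem_sdiff.mpr ⟨hc, hn⟩))
  by_cases h1 : α ∈ A
  · exact ⟨α, fun _ => rfl, fun h => (hαβ h1 h).symm, key α h1 hα⟩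
  by_cases h2 : β ∈ A
  · exact ⟨β, fun h => absurd h h1, fun _ => rfl, key β h2 hβ⟩
  by_cases h3 : ∃ v ∈ C, L v ⊆ A
  · obtain ⟨v, hv, hvA⟩ := h3
    have hne : (L v \ Bad).Nonempty := by
      rw [← Finset.card_pos]
      have := le_card_sdiff Bad (L v)
      have := hL v
      omega
    obtain ⟨c, hc⟩ := hne
    rw [mem_sdiff] at hc
    exact ⟨c, fun h => absurd h h1, fun h => absurd h h2, key c (hvA hc.1) hc.2⟩
  · exact ⟨0, fun h => absurd h h1, fun h => absurd h h2, fun v hv hvA => absurd ⟨v, hv, hvA⟩ h3⟩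

/-- Colouring one independent class which meets two consecutive stations, with at most two
vertices in both. -/
theorem class_lemma {V : Type*} (C : Finset V) (l r : V → Prop) (x y : V)
    (hxy : ∀ v ∈ C, l v → r v → v = x ∨ v = y) (L : V → Finset ℕ) (A B : Finset ℕ)
    (n s δ b : ℕ) (hA : A.card ≤ n) (hB : B.card ≤ n) (hL : ∀ v, s ≤ (L v).card)
    (hδ : n ≤ s + δ) (hC : C.card ≤ b) (hbig : 2 * n + 6 * (b * δ) < 3 * s) :
    ∃ φ : V → ℕ, ∃ cA cB : ℕ, ∀ v ∈ C,
      φ v ∈ L v ∧ (l v → φ v ∈ A → φ v = cA) ∧ (r v → φ v ∈ B → φ v = cB) := by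
  classical
  have hbad : ∀ A : Finset ℕ, A.card ≤ n →
      ((C.filter (fun v => L v ⊆ A)).biUnion (fun v => A \ L v)).card ≤ b * δ := by
    intro A hA
    refine le_trans (card_biUnion_le_card_mul _ _ δ ?_) ?_
    · intro v hv
      rw [mem_filter] at hv
      have h1 := card_sdiff_add_card_eq_card hv.2
      have h2 := hL v
      omega
    · exact Nat.mul_le_mul_right _ (le_trans (card_filter_le _ _) hC)
  set BadA := (C.filter (fun v => L v ⊆ A)).biUnion (fun v => A \ L v) with hBadA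
  set BadB := (C.filter (fun v => L v ⊆ B)).biUnion (fun v => B \ L v) with hBadB
  have h1 : BadA.card ≤ b * δ := hbad A hA
  have h2 : BadB.card ≤ b * δ := hbad B hB
  have h3 : (BadA ∪ BadB).card ≤ 2 * (b * δ) := le_trans (card_union_le _ _) (by omega)
  have h4 : ∀ v, s - 2 * (b * δ) ≤ (L v \ (BadA ∪ BadB)).card := by
    intro v
    have := le_card_sdiff (BadA ∪ BadB) (L v)
    have := hL v
    omega
  obtain ⟨α, hα, β, hβ, hαA, hαB⟩ := pair_lemma A B _ _ n _ hA hB (h4 x) (h4 y) (by omega)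
  rw [mem_sdiff, mem_union, not_or] at hα hβ
  obtain ⟨cA, hcA1, hcA2, hcA3⟩ := common_colour C L A BadA s hL (by omega)
    (fun v hv hvA => subset_biUnion_of_mem (fun v => A \ L v) (mem_filter.mpr ⟨hv, hvA⟩))
    α β hα.2.1 hβ.2.1 hαA
  obtain ⟨cB, hcB1, hcB2, hcB3⟩ := common_colour C L B BadB s hL (by omega)
    (fun v hv hvA => subset_biUnion_of_mem (fun v => B \ L v) (mem_filter.mpr ⟨hv, hvA⟩))
    α β hα.2.2 hβ.2.2 hαB
  have hex : ∀ v, ∃ c, v ∈ C →
      c ∈ L v ∧ (l v → c ∈ A → c = cA) ∧ (r v → c ∈ B → c = cB) := by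
    intro v
    by_cases hvx : v = x
    · exact ⟨α, fun _ => ⟨hvx ▸ hα.1, fun _ => hcA1, fun _ => hcB1⟩⟩
    by_cases hvy : v = y
    · exact ⟨β, fun _ => ⟨hvy ▸ hβ.1, fun _ => hcA2, fun _ => hcB2⟩⟩
    by_cases hl : l v
    · have hr : v ∈ C → ¬ r v := fun hv hr => (hxy v hv hl hr).elim hvx hvy
      by_cases hs : L v ⊆ A
      · exact ⟨cA, fun hv => ⟨hcA3 v hv hs, fun _ _ => rfl, fun h => absurd h (hr hv)⟩⟩
      · obtain ⟨c, hc, hcA⟩ := not_subset.mp hs
        exact ⟨c, fun hv => ⟨hc, fun _ h => absurd h hcA, fun h => absurd h (hr hv)⟩⟩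
    · by_cases hs : L v ⊆ B
      · exact ⟨cB, fun hv => ⟨hcB3 v hv hs, fun h => absurd h hl, fun _ _ => rfl⟩⟩
      · obtain ⟨c, hc, hcB⟩ := not_subset.mp hs
        exact ⟨c, fun _ => ⟨hc, fun h => absurd h hl, fun _ h => absurd h hcB⟩⟩
  choose φ hφ using hex
  exact ⟨φ, cA, cB, hφ⟩

/-- Greedy colouring, class by class. -/
theorem greedy_classes {V K : Type*} [DecidableEq K] (cls : V → K) (near : K → Finset V) (z : ℕ)
    (hnear : ∀ κ, (near κ).card ≤ z) (R : V → V → Prop) (hsymm : ∀ u v, R u v → R v u)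
    (hR : ∀ u v, R u v → u ∈ near (cls v)) (Good : V → ℕ → V → ℕ → Prop)
    (hloc : ∀ κ, ∀ Z : Finset ℕ, Z.card ≤ z → ∃ φ : V → ℕ, (∀ v, cls v = κ → φ v ∉ Z) ∧
      ∀ u v, cls u = κ → cls v = κ → Good u (φ u) v (φ v)) (s : Finset K) :
    ∃ φ : V → ℕ, (∀ u v, cls u ∈ s → cls u = cls v → Good u (φ u) v (φ v)) ∧
      ∀ u v, cls u ∈ s → cls v ∈ s → cls u ≠ cls v → R u v → φ u ≠ φ v := by
  induction s using Finset.induction_on with
  | empty => exact ⟨fun _ => 0, by simp, by simp⟩
  | insert κ s hκ ih =>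
    obtain ⟨φ, h1, h2⟩ := ih
    obtain ⟨ψ, h3, h4⟩ := hloc κ ((near κ).image φ) (le_trans card_image_le (hnear κ))
    refine ⟨fun v => if cls v = κ then ψ v else φ v, ?_, ?_⟩
    · intro u v hu huv
      by_cases hc : cls u = κ
      · have hc' : cls v = κ := huv ▸ hc
        simp only [hc, hc', if_true]
        exact h4 u v hc hc'
      · have hc' : ¬ cls v = κ := huv ▸ hc
        simp only [hc, hc', if_false]
        exact h1 u v ((mem_insert.mp hu).resolve_left hc) huv
    · intro u v hu hv hne hr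
      by_cases hc : cls u = κ
      · have hc' : ¬ cls v = κ := fun h => hne (hc.trans h.symm)
        simp only [hc, hc', if_true, if_false]
        intro e
        apply h3 u hc
        rw [e]
        exact mem_image_of_mem φ (hc ▸ hR v u (hsymm u v hr))
      · by_cases hc' : cls v = κ
        · simp only [hc, hc', if_true, if_false]
          intro e
          apply h3 v hc'
          rw [← e]
          exact mem_image_of_mem φ (hc' ▸ hR u v hr)
        · simp only [hc, hc', if_false]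
          exact h2 u v ((mem_insert.mp hu).resolve_left hc) ((mem_insert.mp hv).resolve_left hc')
            hne hr

/-- If every line of a grid has a repeated colour, these colours identify the lines. -/
theorem phase_lemma {I Λ : Type*} (St : I → Prop) (p q : I → Λ) (cell : Λ → Λ → I)
    (hSt : ∀ r c, St (cell r c)) (hp : ∀ r c, p (cell r c) = r) (hq : ∀ r c, q (cell r c) = c)
    (φ : I → ℕ) (hadj : ∀ u v, St u → St v → p u ≠ p v → q u ≠ q v → φ u ≠ φ v)
    (hph : ∀ r, ∃ c c', c ≠ c' ∧ φ (cell r c) = φ (cell r c')) :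
    ∃ ρ : Λ → ℕ, Function.Injective ρ ∧ (∀ r, ∃ c, ρ r = φ (cell r c)) ∧
      ∀ v, St v → ∀ r, φ v = ρ r → p v = r := by
  choose c c' hcc hφ using hph
  have key : ∀ v, St v → ∀ r, φ v = φ (cell r (c r)) → p v = r := by
    intro v hv r e
    by_contra hne
    by_cases hq1 : q v = c r
    · refine hadj v (cell r (c' r)) hv (hSt _ _) (by rw [hp]; exact hne) ?_ (e.trans (hφ r))
      rw [hq, hq1]; exact hcc r
    · exact hadj v (cell r (c r)) hv (hSt _ _) (by rw [hp]; exact hne) (by rw [hq]; exact hq1) e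
  refine ⟨fun r => φ (cell r (c r)), ?_, fun r => ⟨c r, rfl⟩, key⟩
  intro r r' e
  have := key (cell r (c r)) (hSt _ _) r' e
  rwa [hp] at this

/-- With few colours, every row or every column of the grid has a repeated colour. -/
theorem dichotomy {Λ : Type*} [Fintype Λ] [DecidableEq Λ] (φ : Λ → Λ → ℕ) (Pal : Finset ℕ)
    (hPal : ∀ r c, φ r c ∈ Pal) (hcard : Pal.card + 1 < 2 * Fintype.card Λ)
    (hadj : ∀ r c r' c', r ≠ r' → c ≠ c' → φ r c ≠ φ r' c') :
    (∀ r, ∃ c c', c ≠ c' ∧ φ r c = φ r c') ∨ (∀ c, ∃ r r', r ≠ r' ∧ φ r c = φ r' c) := by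
  by_contra hcon
  rw [not_or] at hcon
  obtain ⟨h1, h2⟩ := hcon
  push Not at h1 h2
  obtain ⟨r0, h1⟩ := h1
  obtain ⟨c0, h2⟩ := h2
  have i1 : Function.Injective (φ r0) := fun c c' e => by
    by_contra hne; exact h1 c c' hne e
  have i2 : Function.Injective (fun r => φ r c0) := fun r r' e => by
    by_contra hne; exact h2 r r' hne e
  have hd : Disjoint (univ.image (φ r0)) ((univ.erase r0).image (fun r => φ r c0)) := by
    rw [Finset.disjoint_left]
    intro x hx hx'
    obtain ⟨c, -, rfl⟩ := mem_image.mp hx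
    obtain ⟨r, hr, e⟩ := mem_image.mp hx'
    have hr' : r ≠ r0 := (mem_erase.mp hr).1
    by_cases hc : c = c0
    · subst hc
      exact h2 r r0 hr' e
    · exact hadj r c0 r0 c hr' (Ne.symm hc) e
  have hsub : univ.image (φ r0) ∪ (univ.erase r0).image (fun r => φ r c0) ⊆ Pal := by
    intro x hx
    rcases mem_union.mp hx with h | h
    · obtain ⟨c, -, rfl⟩ := mem_image.mp h
      exact hPal _ _
    · obtain ⟨r, -, rfl⟩ := mem_image.mp h
      exact hPal _ _
  have h3 := card_le_card hsub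
  rw [card_union_of_disjoint hd, card_image_of_injective _ i1, card_image_of_injective _ i2,
    card_erase_of_mem (mem_univ _), card_univ] at h3
  omega

end Pool.Agent.Lib.MP_583a9a_co
end

-- part Pool.Agent.Lib.MP_583a9a_co.Stations
section

/-! The chain of stations: definition and the non-colourability statement. -/

namespace Pool.Agent.Lib.MP_583a9a_co

open Finset

/-- Rows (or columns) of a station: side, block, index. -/
abbrev Line (m : ℕ) := Bool × Fin m × Bool

/-- Grid cells of a station, and storage cells shared by two consecutive stations. -/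
abbrev Item (M m : ℕ) := (Fin M × Line m × Line m) ⊕ (Fin M × Fin m × Bool × Bool)

variable {M m N : ℕ}

def inSt : Item M m → ℕ → Prop
  | .inl x, t => x.1.val = t
  | .inr x, t => x.1.val = t ∨ x.1.val = t + 1

def row : Item M m → ℕ → Line m
  | .inl x, _ => x.2.1
  | .inr x, t => (decide (x.1.val = t + 1), x.2.1, x.2.2.1)

def col : Item M m → ℕ → Line m
  | .inl x, _ => x.2.2
  | .inr x, t => (decide (x.1.val = t + 1), x.2.1, x.2.2.2)

def IAdj (u v : Item M m) : Prop :=
  u ≠ v ∧ ∃ t, inSt u t ∧ inSt v t ∧ (row u t = row v t → t + 1 = M) ∧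
    (col u t = col v t → t = 0)

theorem IAdj.symm {u v : Item M m} (h : IAdj u v) : IAdj v u := by
  obtain ⟨h1, t, h2, h3, h4, h5⟩ := h
  exact ⟨h1.symm, t, h3, h2, fun e => h4 e.symm, fun e => h5 e.symm⟩

/-- Vertices of the chain: items and the cliques of the stations. -/
abbrev HV (M m N : ℕ) := Item M m ⊕ (Fin M × Fin N)

def HAdj : HV M m N → HV M m N → Prop
  | .inl u, .inl v => IAdj u v
  | .inl u, .inr d => inSt u d.1.val
  | .inr d, .inl u => inSt u d.1.val
  | .inr d, .inr d' => d.1 = d'.1 ∧ d.2 ≠ d'.2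

theorem HAdj.symm {u v : HV M m N} (h : HAdj u v) : HAdj v u := by
  rcases u with u | d <;> rcases v with v | d'
  · exact IAdj.symm h
  · exact h
  · exact h
  · exact ⟨h.1.symm, h.2.symm⟩

theorem HAdj.irrefl (u : HV M m N) : ¬ HAdj u u := by
  rcases u with u | d
  · exact fun h => h.1 rfl
  · exact fun h => h.2 rfl

theorem card_line : Fintype.card (Line m) = 4 * m := by
  simp [Line]; ring

theorem H_lower {j : ℕ} (hM : 1 ≤ M) (hm : m = 2 * j + 1) (φ : HV M m N → ℕ) (Pal : Finset ℕ)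
    (hPal : ∀ v, φ v ∈ Pal) (hcard : Pal.card ≤ N + 4 * m + j)
    (hφ : ∀ u v, HAdj u v → φ u ≠ φ v) : False := by
  classical
  have hP : ∀ t : Fin M, ∃ P : Finset ℕ, P.card ≤ 4 * m + j ∧
      ∀ u : Item M m, inSt u t.val → φ (.inl u) ∈ P := by
    intro t
    have hinj : Function.Injective (fun d : Fin N => φ (.inr (t, d))) := by
      intro d d' e
      by_contra hne
      exact hφ (.inr (t, d)) (.inr (t, d')) ⟨rfl, hne⟩ e
    have hsub : univ.image (fun d : Fin N => φ (.inr (t, d))) ⊆ Pal := by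
      intro c hc
      obtain ⟨d, -, rfl⟩ := mem_image.mp hc
      exact hPal _
    refine ⟨Pal \ univ.image (fun d : Fin N => φ (.inr (t, d))), ?_, ?_⟩
    · have h1 := card_sdiff_add_card_eq_card hsub
      rw [card_image_of_injective _ hinj, card_univ, Fintype.card_fin] at h1
      omega
    · intro u hu
      refine mem_sdiff.mpr ⟨hPal _, fun hc => ?_⟩
      obtain ⟨d, -, e⟩ := mem_image.mp hc
      exact hφ (.inr (t, d)) (.inl u) hu e
  choose P hPc hPm using hP
  have hadj : ∀ (t : ℕ) (u v : Item M m), inSt u t → inSt v t → row u t ≠ row v t →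
      col u t ≠ col v t → φ (.inl u) ≠ φ (.inl v) := by
    intro t u v hu hv h1 h2
    refine hφ (.inl u) (.inl v) ⟨?_, t, hu, hv, fun e => absurd e h1, fun e => absurd e h2⟩
    rintro rfl
    exact h1 rfl
  let PhR : Fin M → Prop := fun t =>
    ∀ r, ∃ c c', c ≠ c' ∧ φ (.inl (.inl (t, r, c))) = φ (.inl (.inl (t, r, c')))
  let PhC : Fin M → Prop := fun t =>
    ∀ c, ∃ r r', r ≠ r' ∧ φ (.inl (.inl (t, r, c))) = φ (.inl (.inl (t, r', c)))
  have hdich : ∀ t, PhR t ∨ PhC t := by
    intro t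
    refine dichotomy (fun r c => φ (.inl (.inl (t, r, c)))) (P t) (fun r c => hPm t _ rfl) ?_ ?_
    · rw [card_line]; have := hPc t; omega
    · intro r c r' c' h1 h2
      exact hadj t.val _ _ rfl rfl h1 h2
  have l0 : Line m := (false, ⟨0, by omega⟩, false)
  have hzero : ∀ t : Fin M, t.val = 0 → ¬ PhC t := by
    intro t ht h
    obtain ⟨r, r', hne, e⟩ := h l0
    refine hφ (.inl (.inl (t, r, l0))) (.inl (.inl (t, r', l0)))
      ⟨?_, t.val, rfl, rfl, fun e => absurd e hne, fun _ => ht⟩ e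
    intro e'
    apply hne
    simpa using e'
  have hlast : ∀ t : Fin M, t.val + 1 = M → ¬ PhR t := by
    intro t ht h
    obtain ⟨c, c', hne, e⟩ := h l0
    refine hφ (.inl (.inl (t, l0, c))) (.inl (.inl (t, l0, c')))
      ⟨?_, t.val, rfl, rfl, fun _ => ht, fun e => absurd e hne⟩ e
    intro e'
    apply hne
    simpa using e'
  have hextra : ∀ (t : Fin M) (ρ : Line m → ℕ), Function.Injective ρ → (∀ r, ρ r ∈ P t) →
      (P t \ univ.image ρ).card ≤ j := by
    intro t ρ h1 h2
    have hsub : univ.image ρ ⊆ P t := by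
      intro c hc
      obtain ⟨r, -, rfl⟩ := mem_image.mp hc
      exact h2 r
    have h3 := card_sdiff_add_card_eq_card hsub
    rw [card_image_of_injective _ h1, card_univ, card_line] at h3
    have := hPc t
    omega
  have hstep : ∀ t t' : Fin M, t'.val = t.val + 1 → PhR t → ¬ PhC t' := by
    intro t t' htt hR hC
    obtain ⟨ρ, hρ1, hρ2, hρ3⟩ := phase_lemma (fun u : Item M m => inSt u t.val)
      (fun u => row u t.val) (fun u => col u t.val) (fun r c => .inl (t, r, c))
      (fun _ _ => rfl) (fun _ _ => rfl) (fun _ _ => rfl) (fun u => φ (.inl u)) (hadj t.val) hR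
    obtain ⟨χ, hχ1, hχ2, hχ3⟩ := phase_lemma (fun u : Item M m => inSt u t'.val)
      (fun u => col u t'.val) (fun u => row u t'.val) (fun c r => .inl (t', r, c))
      (fun _ _ => rfl) (fun _ _ => rfl) (fun _ _ => rfl) (fun u => φ (.inl u))
      (fun u v hu hv h1 h2 => hadj t'.val u v hu hv h2 h1) hC
    have hE1 := hextra t ρ hρ1 (fun r => by
      obtain ⟨c, e⟩ := hρ2 r
      rw [e]; exact hPm t _ rfl)
    have hE2 := hextra t' χ hχ1 (fun c => by
      obtain ⟨r, e⟩ := hχ2 c
      rw [e]; exact hPm t' _ rfl)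
    have hin1 : ∀ γ x y, inSt (.inr (t', γ, x, y) : Item M m) t.val := fun _ _ _ => Or.inr htt
    have hin2 : ∀ γ x y, inSt (.inr (t', γ, x, y) : Item M m) t'.val := fun _ _ _ => Or.inl rfl
    let dirty : Finset (Fin m) := univ.filter (fun γ =>
      ∃ y, φ (.inl (.inr (t', γ, false, y))) ∉ univ.image ρ)
    have hdirty : dirty.card ≤ j := by
      have hex : ∀ γ : Fin m, ∃ y, γ ∈ dirty →
          φ (.inl (.inr (t', γ, false, y))) ∉ univ.image ρ := by
        intro γ
        by_cases h : γ ∈ dirty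
        · obtain ⟨y, hy⟩ := (mem_filter.mp h).2
          exact ⟨y, fun _ => hy⟩
        · exact ⟨false, fun h' => absurd h' h⟩
      choose y hy using hex
      refine le_trans (card_le_card_of_injOn
        (fun γ => φ (.inl (.inr (t', γ, false, y γ)))) ?_ ?_) hE1
      · intro γ hγ
        exact mem_coe.mpr (mem_sdiff.mpr ⟨hPm t _ (hin1 _ _ _), hy γ hγ⟩)
      · intro γ _ γ' _ e
        by_contra hne
        refine hadj t.val _ _ (hin1 _ _ _) (hin1 _ _ _) ?_ ?_ e
        · intro e'; apply hne; simpa [row] using e'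
        · intro e'; apply hne
          have := congrArg (fun p : Line m => p.2.1) e'
          simpa [col] using this
    have hclean : ∀ γ ∈ univ \ dirty, ∀ y,
        φ (.inl (.inr (t', γ, false, y))) = ρ (true, γ, false) := by
      intro γ hγ y
      have h1 : φ (.inl (.inr (t', γ, false, y))) ∈ univ.image ρ := by
        by_contra hc
        exact (mem_sdiff.mp hγ).2 (mem_filter.mpr ⟨mem_univ _, y, hc⟩)
      obtain ⟨r, -, e⟩ := mem_image.mp h1
      have h2 := hρ3 _ (hin1 γ false y) r e.symm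
      rw [← e, ← h2]
      simp [row, htt]
    have hcl : (univ \ dirty).card ≤ j := by
      refine le_trans (card_le_card_of_injOn (fun γ => ρ (true, γ, false)) ?_ ?_) hE2
      · intro γ hγ
        have hγ' := mem_coe.mp hγ
        refine mem_coe.mpr (mem_sdiff.mpr ⟨?_, fun hc => ?_⟩)
        · show ρ (true, γ, false) ∈ P t'
          rw [← hclean γ hγ' false]; exact hPm t' _ (hin2 _ _ _)
        · obtain ⟨c, -, e⟩ := mem_image.mp hc
          have e1 := hχ3 _ (hin2 γ false false) c ((hclean γ hγ' false).trans e.symm)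
          have e2 := hχ3 _ (hin2 γ false true) c ((hclean γ hγ' true).trans e.symm)
          have e3 := e1.trans e2.symm
          simp [col] at e3
      · intro γ _ γ' _ e
        simpa using hρ1 e
    have h1 := card_sdiff_add_card_eq_card (subset_univ dirty)
    rw [card_univ, Fintype.card_fin] at h1
    omega
  have hall : ∀ n (h : n < M), PhR ⟨n, h⟩ := by
    intro n
    induction n with
    | zero => intro h; exact (hdich _).resolve_right (hzero _ rfl)
    | succ n ih =>
      intro h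
      exact (hdich _).resolve_right (hstep ⟨n, by omega⟩ ⟨n + 1, h⟩ rfl (ih (by omega)))
  exact hlast ⟨M - 1, by omega⟩ (by simp; omega) (hall _ _)

end Pool.Agent.Lib.MP_583a9a_co
end

-- part Pool.Agent.Lib.MP_583a9a_co.Upper
section

/-! The chain of stations is list colourable once one storage layer has long lists. -/

namespace Pool.Agent.Lib.MP_583a9a_co

open Finset

variable {M m N : ℕ}

theorem code_inj {u v : Item M m} {t : ℕ} (hu : inSt u t) (hv : inSt v t)
    (h1 : row u t = row v t) (h2 : col u t = col v t) (h3 : u.isLeft = v.isLeft) : u = v := by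
  rcases u with ⟨a, r, c⟩ | ⟨g, γ, x, y⟩ <;> rcases v with ⟨a', r', c'⟩ | ⟨g', γ', x', y'⟩
  · simp only [inSt, row, col] at hu hv h1 h2
    have : a = a' := Fin.ext (hu.trans hv.symm)
    rw [this, h1, h2]
  · simp at h3
  · simp at h3
  · simp only [inSt, row, col, Prod.mk.injEq, decide_eq_decide] at hu hv h1 h2
    have : g = g' := Fin.ext (by omega)
    rw [this, h1.2.1, h1.2.2, h2.2.2]

def special (i : ℕ) : Item M m → Prop
  | .inl _ => False
  | .inr x => x.1.val = i

def line (i : ℕ) (v : Item M m) (t : ℕ) : Line m := if t < i then row v t else col v t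

def other (i : ℕ) (v : Item M m) (t : ℕ) : Line m := if t < i then col v t else row v t

abbrev Cls (m : ℕ) := ℕ × Fin m × Bool × Option Bool

def clsOf (t : ℕ) (l : Line m) : Cls m := (t + l.1.toNat, l.2.1, l.2.2, none)

theorem clsOf_inj (t : ℕ) : Function.Injective (clsOf (m := m) t) := by
  rintro ⟨a, b, c⟩ ⟨a', b', c'⟩ h
  simp only [clsOf, Prod.mk.injEq] at h
  obtain ⟨h1, h2, h3, -⟩ := h
  have : a = a' := by cases a <;> cases a' <;> simp_all
  rw [this, h2, h3]

def cls (i : ℕ) : Item M m → Cls m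
  | .inl x => clsOf x.1.val (line i (.inl x) x.1.val)
  | .inr x => if x.1.val = i then (i, x.2.1, x.2.2.1, some x.2.2.2)
      else if x.1.val < i then (x.1.val, x.2.1, x.2.2.1, none) else (x.1.val, x.2.1, x.2.2.2, none)

theorem cls_eq {i : ℕ} {v : Item M m} {t : ℕ} (hv : inSt v t) (hs : ¬ special i v) :
    cls i v = clsOf t (line i v t) := by
  rcases v with x | ⟨g, γ, x, y⟩
  · simp only [inSt] at hv
    subst hv
    rfl
  · simp only [inSt] at hv
    simp only [special] at hs
    simp only [cls, hs, if_false, clsOf, line]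
    rcases hv with hv | hv
    · subst hv
      by_cases h : g.val < i <;> simp [h, row, col]
    · by_cases h : g.val < i
      · have h' : t < i := by omega
        rw [if_pos h, if_pos h']
        simp [row, hv]
      · have h' : ¬ t < i := by omega
        rw [if_neg h, if_neg h']
        simp [col, hv]

theorem special_iff {i : ℕ} {v : Item M m} : special i v ↔ (cls i v).2.2.2 ≠ none := by
  rcases v with x | ⟨g, γ, x, y⟩
  · simp [special, cls, clsOf]
  · simp only [special, cls]
    by_cases h : g.val = i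
    · simp [h]
    · by_cases h' : g.val < i <;> simp [h, h']

theorem special_inj {i : ℕ} {u v : Item M m} (hu : special i u) (h : cls i u = cls i v) :
    u = v := by
  have hv : special i v := by rw [special_iff, ← h, ← special_iff]; exact hu
  rcases u with x | ⟨g, γ, x, y⟩
  · exact absurd hu (by simp [special])
  rcases v with x' | ⟨g', γ', x', y'⟩
  · exact absurd hv (by simp [special])
  simp only [special] at hu hv
  simp only [cls, hu, hv, if_true, Prod.mk.injEq, Option.some.injEq] at h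
  have : g = g' := Fin.ext (hu.trans hv.symm)
  rw [this, h.2.1, h.2.2.1, h.2.2.2]

theorem cls_gen {i : ℕ} {v : Item M m} {t : ℕ} (hv : inSt v t) :
    (cls i v).1 = t ∨ (cls i v).1 = t + 1 := by
  by_cases hs : special i v
  · rcases v with x | ⟨g, γ, x, y⟩
    · exact absurd hs (by simp [special])
    · simp only [special] at hs
      simp only [inSt] at hv
      simp only [cls, hs, if_true]
      omega
  · rw [cls_eq hv hs]
    simp only [clsOf]
    cases (line i v t).1 <;> simp

theorem cls_indep {i : ℕ} (hi1 : 1 ≤ i) (hi2 : i + 1 ≤ M) {u v : Item M m}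
    (h : cls i u = cls i v) : ¬ IAdj u v := by
  rintro ⟨hne, t, hu, hv, h1, h2⟩
  by_cases hs : special i u
  · exact hne (special_inj hs h)
  have hs' : ¬ special i v := by rw [special_iff, ← h, ← special_iff]; exact hs
  rw [cls_eq hu hs, cls_eq hv hs'] at h
  have h3 := clsOf_inj t h
  unfold line at h3
  by_cases ht : t < i
  · simp only [ht, if_true] at h3
    have := h1 h3
    omega
  · simp only [ht, if_false] at h3
    have := h2 h3
    omega

open Classical in
/-- The items of a station. -/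
noncomputable def St (M m : ℕ) (t : ℕ) : Finset (Item M m) := univ.filter (fun v => inSt v t)

theorem mem_St {v : Item M m} {t : ℕ} : v ∈ St M m t ↔ inSt v t := by
  simp [St]

theorem card_St (t : ℕ) : (St M m t).card ≤ 2 * (4 * m) ^ 2 := by
  have h : (St M m t).card ≤ (univ : Finset (Line m × Line m × Bool)).card := by
    refine card_le_card_of_injOn (fun v => (row v t, col v t, v.isLeft)) (fun _ _ => by simp) ?_
    intro u hu v hv e
    simp only [Prod.mk.injEq] at e
    exact code_inj (mem_St.mp hu) (mem_St.mp hv) e.1 e.2.1 e.2.2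
  rw [card_univ, Fintype.card_prod, card_line, Fintype.card_prod, card_line,
    Fintype.card_bool] at h
  nlinarith

theorem card_cls_St (i : ℕ) (κ : Cls m) (hκ : κ.2.2.2 = none) (t : ℕ) :
    ((St M m t).filter (fun v => cls i v = κ)).card ≤ 2 * (4 * m) := by
  have h : ((St M m t).filter (fun v => cls i v = κ)).card ≤
      (univ : Finset (Line m × Bool)).card := by
    refine card_le_card_of_injOn (fun v => (other i v t, v.isLeft)) (fun _ _ => by simp) ?_
    intro u hu v hv e
    simp only [Prod.mk.injEq] at e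
    have hu' := mem_filter.mp (mem_coe.mp hu)
    have hv' := mem_filter.mp (mem_coe.mp hv)
    have hu1 := mem_St.mp hu'.1
    have hv1 := mem_St.mp hv'.1
    have hsu : ¬ special i u := by rw [special_iff, hu'.2]; simpa using hκ
    have hsv : ¬ special i v := by rw [special_iff, hv'.2]; simpa using hκ
    have h3 : line i u t = line i v t := by
      apply clsOf_inj t
      rw [← cls_eq hu1 hsu, ← cls_eq hv1 hsv, hu'.2, hv'.2]
    have h4 := e.1
    unfold line at h3
    unfold other at h4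
    by_cases ht : t < i
    · simp only [ht, if_true] at h3 h4
      exact code_inj hu1 hv1 h3 h4 e.2
    · simp only [ht, if_false] at h3 h4
      exact code_inj hu1 hv1 h4 h3 e.2
  rw [card_univ, Fintype.card_prod, card_line, Fintype.card_bool] at h
  omega

theorem exists_inSt (v : Item M m) : ∃ t, inSt v t := by
  rcases v with x | x
  · exact ⟨_, rfl⟩
  · exact ⟨_, Or.inl rfl⟩

theorem exists_pair (i : ℕ) (hM : 1 ≤ M) (κ : Cls m) (hκ : κ.2.2.2 = none) :
    ∃ x y : Item M m, ∀ v, cls i v = κ → (∃ t, t + 1 = κ.1 ∧ inSt v t) → inSt v κ.1 →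
      v = x ∨ v = y := by
  obtain ⟨g, γ, z, o⟩ := κ
  simp only at hκ
  subst hκ
  let g' : Fin M := if h : g < M then ⟨g, h⟩ else ⟨0, by omega⟩
  refine ⟨if g < i then .inr (g', γ, z, false) else .inr (g', γ, false, z),
    if g < i then .inr (g', γ, z, true) else .inr (g', γ, true, z), ?_⟩
  rintro v hv ⟨t, ht, h1⟩ h2
  simp only at ht h2
  rcases v with x | ⟨a, γ', x, y⟩
  · simp only [inSt] at h1 h2
    omega
  · simp only [inSt] at h1 h2
    have ha : a.val = g := by omega
    have hg : g' = a := by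
      have : g < M := ha ▸ a.2
      simp only [g', this, dif_pos]
      exact Fin.ext ha.symm
    rw [hg]
    simp only [cls] at hv
    by_cases hai : a.val = i
    · simp [hai] at hv
    · rw [if_neg hai, ha] at hv
      by_cases hgi : g < i
      · simp only [hgi, if_true, Prod.mk.injEq] at hv ⊢
        obtain ⟨-, rfl, rfl, -⟩ := hv
        cases y <;> simp
      · simp only [hgi, if_false, Prod.mk.injEq] at hv ⊢
        obtain ⟨-, rfl, rfl, -⟩ := hv
        cases x <;> simp

theorem items_colouring {i : ℕ} (hm : 1 ≤ m) (hi1 : 1 ≤ i) (hi2 : i + 1 ≤ M) (W : ℕ)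
    (hW : W = 2 * (4 * m) ^ 2) (hN : 80 * ((4 * m) * W) ≤ N) (L : Item M m → Finset ℕ)
    (hL : ∀ v, N + 4 * m ≤ (L v).card)
    (hL' : ∀ v, special i v → 2 * N + 4 * W + 1 ≤ (L v).card)
    (U : ℕ → Finset ℕ) (hU : ∀ t, (U t).card ≤ N + W) :
    ∃ φ : Item M m → ℕ, (∀ v, φ v ∈ L v) ∧ (∀ u v, IAdj u v → φ u ≠ φ v) ∧
      ∀ t, ((St M m t).image φ ∩ U t).card ≤ 4 * m := by
  classical
  have hWle : W ≤ (4 * m) * W := Nat.le_mul_of_pos_left _ (by omega)
  let near : Cls m → Finset (Item M m) := fun κ => St M m (κ.1 - 1) ∪ St M m κ.1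
  have hnear : ∀ κ, (near κ).card ≤ 2 * W := by
    intro κ
    have h1 := card_union_le (St M m (κ.1 - 1)) (St M m κ.1)
    have h2 := card_St (M := M) (m := m) (κ.1 - 1)
    have h3 := card_St (M := M) (m := m) κ.1
    show (St M m (κ.1 - 1) ∪ St M m κ.1).card ≤ 2 * W
    omega
  have hmemnear : ∀ (u v : Item M m) (t : ℕ), inSt u t → inSt v t → u ∈ near (cls i v) := by
    intro u v t hu hv
    rcases cls_gen (i := i) hv with h | h
    · exact mem_union_right _ (mem_St.mpr (h ▸ hu))
    · refine mem_union_left _ (mem_St.mpr ?_)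
      rw [h]; simpa using hu
  let Good : Item M m → ℕ → Item M m → ℕ → Prop := fun u cu v cv =>
    cu ∈ L u ∧ (∀ t, inSt u t → inSt v t → cu ∈ U t → cv ∈ U t → cu = cv) ∧
      (special i u → ∀ t, inSt u t → cu ∉ U t)
  have hloc : ∀ κ, ∀ Z : Finset ℕ, Z.card ≤ 2 * W → ∃ φ : Item M m → ℕ,
      (∀ v, cls i v = κ → φ v ∉ Z) ∧
      ∀ u v, cls i u = κ → cls i v = κ → Good u (φ u) v (φ v) := by
    intro κ Z hZ
    by_cases hκ : κ.2.2.2 = none
    · obtain ⟨x, y, hxy⟩ := exists_pair (M := M) i (by omega) κ hκ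
      let C : Finset (Item M m) := univ.filter (fun v => cls i v = κ)
      have hC : C.card ≤ 4 * (4 * m) := by
        have hsub : C ⊆ (St M m (κ.1 - 1)).filter (fun v => cls i v = κ) ∪
            (St M m κ.1).filter (fun v => cls i v = κ) := by
          intro v hv
          have hv' := (mem_filter.mp hv).2
          obtain ⟨t, ht⟩ := exists_inSt v
          have h1 := hmemnear v v t ht ht
          rw [hv'] at h1
          rcases mem_union.mp h1 with h | h
          · exact mem_union_left _ (mem_filter.mpr ⟨h, hv'⟩)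
          · exact mem_union_right _ (mem_filter.mpr ⟨h, hv'⟩)
        have h1 := card_le_card hsub
        have h2 := card_union_le ((St M m (κ.1 - 1)).filter (fun v => cls i v = κ))
          ((St M m κ.1).filter (fun v => cls i v = κ))
        have h3 := card_cls_St (M := M) i κ hκ (κ.1 - 1)
        have h4 := card_cls_St (M := M) i κ hκ κ.1
        omega
      obtain ⟨φ, cA, cB, hφ⟩ := class_lemma C (fun v => ∃ t, t + 1 = κ.1 ∧ inSt v t)
        (fun v => inSt v κ.1) x y (fun v hv => hxy v (mem_filter.mp hv).2)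
        (fun v => L v \ Z) (U (κ.1 - 1)) (U κ.1) (N + W) (N + 4 * m - 2 * W) (3 * W)
        (4 * (4 * m)) (hU _) (hU _)
        (fun v => by
          have h1 := le_card_sdiff Z (L v)
          have h2 := hL v
          omega)
        (by omega) hC
        (by
          have : 4 * (4 * m) * (3 * W) = 12 * ((4 * m) * W) := by ring
          omega)
      have hφ' : ∀ v, cls i v = κ → _ := fun v hv => hφ v (mem_filter.mpr ⟨mem_univ _, hv⟩)
      refine ⟨φ, fun v hv => (mem_sdiff.mp (hφ' v hv).1).2, ?_⟩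
      intro u v hu hv
      refine ⟨(mem_sdiff.mp (hφ' u hu).1).1, ?_, ?_⟩
      · intro t h1 h2 h3 h4
        rcases cls_gen (i := i) h1 with h | h
        · rw [hu] at h
          rw [← h] at h1 h2 h3 h4
          rw [(hφ' u hu).2.2 h1 h3, (hφ' v hv).2.2 h2 h4]
        · rw [hu] at h
          have ht : t = κ.1 - 1 := by omega
          rw [(hφ' u hu).2.1 ⟨t, h.symm, h1⟩ (ht ▸ h3), (hφ' v hv).2.1 ⟨t, h.symm, h2⟩ (ht ▸ h4)]
      · intro hs
        rw [special_iff, hu] at hs
        exact absurd hκ hs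
    · have hex : ∀ v : Item M m, ∃ c, special i v →
          c ∈ L v ∧ c ∉ Z ∧ c ∉ U (κ.1 - 1) ∧ c ∉ U κ.1 := by
        intro v
        by_cases hs : special i v
        · have h1 := le_card_sdiff (Z ∪ U (κ.1 - 1) ∪ U κ.1) (L v)
          have h2 := hL' v hs
          have h3 := card_union_le (Z ∪ U (κ.1 - 1)) (U κ.1)
          have h4 := card_union_le Z (U (κ.1 - 1))
          have h5 := hU (κ.1 - 1)
          have h6 := hU κ.1
          have hne : (L v \ (Z ∪ U (κ.1 - 1) ∪ U κ.1)).Nonempty := by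
            rw [← Finset.card_pos]; omega
          obtain ⟨c, hc⟩ := hne
          simp only [mem_sdiff, mem_union, not_or] at hc
          exact ⟨c, fun _ => ⟨hc.1, hc.2.1.1, hc.2.1.2, hc.2.2⟩⟩
        · exact ⟨0, fun h => absurd h hs⟩
      choose φ hφ using hex
      have hsp : ∀ v : Item M m, cls i v = κ → special i v := by
        intro v hv
        rw [special_iff, hv]; exact hκ
      have hnot : ∀ u : Item M m, cls i u = κ → ∀ t, inSt u t → φ u ∉ U t := by
        intro u hu t h1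
        rcases cls_gen (i := i) h1 with h | h
        · rw [hu] at h
          rw [← h]; exact (hφ u (hsp u hu)).2.2.2
        · rw [hu] at h
          have ht : t = κ.1 - 1 := by omega
          rw [ht]; exact (hφ u (hsp u hu)).2.2.1
      refine ⟨φ, fun v hv => (hφ v (hsp v hv)).2.1, ?_⟩
      intro u v hu _
      exact ⟨(hφ u (hsp u hu)).1, fun t h1 _ h3 _ => absurd h3 (hnot u hu t h1),
        fun _ => hnot u hu⟩
  obtain ⟨φ, h1, h2⟩ := greedy_classes (cls i) near (2 * W) hnear IAdj (fun _ _ h => h.symm)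
    (fun u v h => by
      obtain ⟨-, t, hu, hv, -⟩ := h
      exact hmemnear u v t hu hv) Good hloc (univ.image (cls i))
  have hmem : ∀ v : Item M m, cls i v ∈ univ.image (cls i) :=
    fun v => mem_image_of_mem _ (mem_univ v)
  refine ⟨φ, fun v => (h1 v v (hmem v) rfl).1, ?_, ?_⟩
  · intro u v h
    exact h2 u v (hmem u) (hmem v) (fun e => cls_indep hi1 hi2 e h) h
  · intro t
    have hex : ∀ c, ∃ l : Line m, c ∈ (St M m t).image φ ∩ U t →
        ∃ v, inSt v t ∧ φ v = c ∧ ¬ special i v ∧ line i v t = l := by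
      intro c
      by_cases hc : c ∈ (St M m t).image φ ∩ U t
      · obtain ⟨hc1, hc2⟩ := mem_inter.mp hc
        obtain ⟨v, hv, e⟩ := mem_image.mp hc1
        have hv' := mem_St.mp hv
        refine ⟨line i v t, fun _ => ⟨v, hv', e, fun hs => ?_, rfl⟩⟩
        exact (h1 v v (hmem v) rfl).2.2 hs t hv' (e ▸ hc2)
      · exact ⟨(false, ⟨0, by omega⟩, false), fun h => absurd h hc⟩
    choose lc hlc using hex
    have h : ((St M m t).image φ ∩ U t).card ≤ (univ : Finset (Line m)).card := by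
      refine card_le_card_of_injOn lc (fun _ _ => by simp) ?_
      intro c hc c' hc' e
      obtain ⟨v, hv1, hv2, hv3, hv4⟩ := hlc c hc
      obtain ⟨v', hv1', hv2', hv3', hv4'⟩ := hlc c' hc'
      have hcls : cls i v = cls i v' := by
        rw [cls_eq hv1 hv3, cls_eq hv1' hv3', hv4, hv4', e]
      rw [← hv2, ← hv2']
      exact (h1 v v' (hmem v) hcls).2.1 t hv1 hv1' (hv2 ▸ (mem_inter.mp hc).2)
        (hv2' ▸ (mem_inter.mp hc').2)
    rwa [card_univ, card_line] at h

theorem H_upper {i : ℕ} (hm : 1 ≤ m) (hi1 : 1 ≤ i) (hi2 : i + 1 ≤ M) (W : ℕ)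
    (hW : W = 2 * (4 * m) ^ 2) (hN : 80 * ((4 * m) * W) ≤ N) (L : HV M m N → Finset ℕ)
    (hL : ∀ v, N + 4 * m ≤ (L v).card)
    (hL' : ∀ v, special i v → 2 * N + 4 * W + 1 ≤ (L (.inl v)).card) :
    ∃ φ : HV M m N → ℕ, (∀ v, φ v ∈ L v) ∧ ∀ u v, HAdj u v → φ u ≠ φ v := by
  classical
  have hWle : W ≤ (4 * m) * W := Nat.le_mul_of_pos_left _ (by omega)
  have hH : ∀ t : Fin M, _ := fun t => hall_clique (D := Fin N) N (4 * m) W (Fintype.card_fin N)
    (fun d => L (.inr (t, d))) (fun d => hL _) (by omega)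
  choose U0 hU0 hU1 using hH
  let U : ℕ → Finset ℕ := fun t => if h : t < M then U0 ⟨t, h⟩ else ∅
  have hU : ∀ t, (U t).card ≤ N + W := by
    intro t
    by_cases h : t < M
    · simp only [U, h, dif_pos]; exact hU0 _
    · simp [U, h]
  have hUt : ∀ t : Fin M, U t.val = U0 t := fun t => by simp [U, t.2]
  obtain ⟨φ, h1, h2, h3⟩ := items_colouring hm hi1 hi2 W hW hN (fun v => L (.inl v))
    (fun v => hL _) hL' U hU
  have hD : ∀ t : Fin M, ∃ χ : Fin N → ℕ, Function.Injective χ ∧
      ∀ d, χ d ∈ L (.inr (t, d)) ∧ χ d ∉ (St M m t.val).image φ := by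
    intro t
    refine hU1 t _ (le_trans card_image_le (hW ▸ card_St _)) ?_
    rw [← hUt]; exact h3 _
  choose χ hχ1 hχ2 using hD
  refine ⟨fun v => match v with
    | .inl u => φ u
    | .inr d => χ d.1 d.2, ?_, ?_⟩
  · rintro (u | ⟨t, d⟩)
    · exact h1 u
    · exact (hχ2 t d).1
  · rintro (u | ⟨t, d⟩) (v | ⟨t', d'⟩) h
    · exact h2 u v h
    · intro e
      apply (hχ2 t' d').2
      exact mem_image.mpr ⟨u, mem_St.mpr h, e⟩
    · intro e
      apply (hχ2 t d).2
      exact mem_image.mpr ⟨v, mem_St.mpr h, e.symm⟩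
    · obtain ⟨h4, h5⟩ := h
      simp only at h4 h5
      subst h4
      exact fun e => h5 (hχ1 t e)

end Pool.Agent.Lib.MP_583a9a_co
end

-- part Pool.Agent.Lib.MP_583a9a_co.Final
section

/-! Roots and copies: the final graph. -/

namespace Pool.Agent.Lib.MP_583a9a_co

open Finset

/-- Roots `S` together with one copy of a graph on `X` for each index; `T x` is the set of roots
adjacent to the copies of `x`. -/
def rootedGraph {S X ι : Type*} (A : X → X → Prop) (hs : ∀ u v, A u v → A v u)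
    (hi : ∀ u, ¬ A u u) (T : X → Finset S) : SimpleGraph (S ⊕ (ι × X)) where
  Adj a b := match a, b with
    | .inl _, .inl _ => False
    | .inl s, .inr y => s ∈ T y.2
    | .inr x, .inl s => s ∈ T x.2
    | .inr x, .inr y => x.1 = y.1 ∧ A x.2 y.2
  symm := ⟨by
    rintro (s | x) (s' | y) h
    · exact h
    · exact h
    · exact h
    · exact ⟨h.1.symm, hs _ _ h.2⟩⟩
  loopless := ⟨by
    rintro (s | x) h
    · exact h
    · exact hi _ h.2⟩

theorem rooted_lower {X : Type*} {σ : ℕ} (A : X → X → Prop) (hs : ∀ u v, A u v → A v u)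
    (hi : ∀ u, ¬ A u u) (T : X → Finset (Fin σ)) (t f K : ℕ) (hK : K = f + t)
    (hT : ∀ x, (T x).card = t)
    (hA : ∀ φ : X → ℕ, (∀ x, φ x ∈ range f) → (∀ u v, A u v → φ u ≠ φ v) → False) :
    ∃ L : Fin σ ⊕ ((Fin σ → Fin K) × X) → Finset ℕ, (∀ v, K ≤ (L v).card) ∧
      ¬ ∃ φ : Fin σ ⊕ ((Fin σ → Fin K) × X) → ℕ, (∀ v, φ v ∈ L v) ∧
        ∀ u v, (rootedGraph A hs hi T).Adj u v → φ u ≠ φ v := by
  let enc : Fin σ → Fin K → ℕ := fun s b => f + Nat.pair s.val b.val
  have henc : ∀ s b s' b', enc s b = enc s' b' → s = s' ∧ b = b' := by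
    intro s b s' b' e
    have h : Nat.pair s.val b.val = Nat.pair s'.val b'.val := Nat.add_left_cancel e
    rw [Nat.pair_eq_pair] at h
    exact ⟨Fin.ext h.1, Fin.ext h.2⟩
  refine ⟨fun v => match v with
    | .inl s => univ.image (enc s)
    | .inr y => range f ∪ (T y.2).image (fun s => enc s (y.1 s)), ?_, ?_⟩
  · rintro (s | ⟨ψ, x⟩)
    · show K ≤ (univ.image (enc s)).card
      rw [card_image_of_injective _ (fun b b' e => (henc _ _ _ _ e).2), card_univ,
        Fintype.card_fin]
    · show K ≤ (range f ∪ (T x).image (fun s => enc s (ψ s))).card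
      rw [card_union_of_disjoint, card_range,
        card_image_of_injective _ (fun s s' e => (henc _ _ _ _ e).1), hT, hK]
      rw [Finset.disjoint_left]
      intro c hc hc'
      obtain ⟨s, -, rfl⟩ := mem_image.mp hc'
      have := mem_range.mp hc
      simp only [enc] at this
      omega
  · rintro ⟨φ, h1, h2⟩
    have hex : ∀ s, ∃ b, enc s b = φ (.inl s) := by
      intro s
      obtain ⟨b, -, e⟩ := mem_image.mp (h1 (.inl s))
      exact ⟨b, e⟩
    choose ψ hψ using hex
    refine hA (fun x => φ (.inr (ψ, x))) ?_ ?_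
    · intro x
      rcases mem_union.mp (h1 (.inr (ψ, x))) with h | h
      · exact h
      · obtain ⟨s, hs', e⟩ := mem_image.mp h
        exact absurd ((hψ s).symm.trans e) (h2 (.inl s) (.inr (ψ, x)) hs')
    · intro u v h
      exact h2 (.inr (ψ, u)) (.inr (ψ, v)) ⟨rfl, h⟩

theorem rooted_upper {X ι : Type*} {σ : ℕ} (A : X → X → Prop) (hs : ∀ u v, A u v → A v u)
    (hi : ∀ u, ¬ A u u) (T : X → Finset (Fin σ)) (t k ℓ : ℕ) (hk : 1 ≤ k) (hσ : ℓ * t < σ)
    (hT : ∀ x, (T x).card = t)
    (hA : ∀ e : Finset (Fin σ), e.card = t → ∀ L : X → Finset ℕ, (∀ x, k - t ≤ (L x).card) →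
      (∀ x, T x = e → k - 1 ≤ (L x).card) →
      ∃ φ : X → ℕ, (∀ x, φ x ∈ L x) ∧ ∀ u v, A u v → φ u ≠ φ v)
    (L : Fin σ ⊕ (ι × X) → Finset ℕ) (hL : ∀ v, k ≤ (L v).card) (Pal : Finset ℕ)
    (hPal : Pal.card ≤ ℓ) (hsub : ∀ v, L v ⊆ Pal) :
    ∃ φ : Fin σ ⊕ (ι × X) → ℕ, (∀ v, φ v ∈ L v) ∧
      ∀ u v, (rootedGraph A hs hi T).Adj u v → φ u ≠ φ v := by
  have hex : ∀ s, ∃ c, c ∈ L (.inl s) := by
    intro s
    have : (L (.inl s)).Nonempty := by
      rw [← Finset.card_pos]; have := hL (.inl s); omega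
    exact this
  choose ψ0 hψ0 using hex
  obtain ⟨c, -, hc⟩ := exists_lt_card_fiber_of_mul_lt_card_of_maps_to (s := univ) (t := Pal)
    (f := ψ0) (n := t) (fun s _ => hsub _ (hψ0 s)) (by
      rw [card_univ, Fintype.card_fin]
      exact lt_of_le_of_lt (Nat.mul_le_mul_right _ hPal) hσ)
  obtain ⟨e, he1, he2⟩ := exists_subset_card_eq hc.le
  have hcopy : ∀ a : ι, ∃ φ : X → ℕ, (∀ x, φ x ∈ L (.inr (a, x)) \ (T x).image ψ0) ∧
      ∀ u v, A u v → φ u ≠ φ v := by
    intro a
    refine hA e he2 _ ?_ ?_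
    · intro x
      have h1 := le_card_sdiff ((T x).image ψ0) (L (.inr (a, x)))
      have h2 : ((T x).image ψ0).card ≤ t := hT x ▸ card_image_le
      have h3 := hL (.inr (a, x))
      omega
    · intro x hx
      have h1 := le_card_sdiff ((T x).image ψ0) (L (.inr (a, x)))
      have h2 : ((T x).image ψ0).card ≤ 1 := by
        refine le_trans (card_le_card (t := {c}) ?_) (by simp)
        intro d hd
        obtain ⟨s, hs', rfl⟩ := mem_image.mp hd
        rw [hx] at hs'
        exact mem_singleton.mpr (mem_filter.mp (he1 hs')).2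
      have h3 := hL (.inr (a, x))
      omega
  choose χ hχ1 hχ2 using hcopy
  refine ⟨fun v => match v with
    | .inl s => ψ0 s
    | .inr y => χ y.1 y.2, ?_, ?_⟩
  · rintro (s | ⟨a, x⟩)
    · exact hψ0 s
    · exact (mem_sdiff.mp (hχ1 a x)).1
  · rintro (s | ⟨a, x⟩) (s' | ⟨a', x'⟩) h
    · exact absurd h id
    · intro e'
      exact (mem_sdiff.mp (hχ1 a' x')).2 (mem_image.mpr ⟨s, h, e'⟩)
    · intro e'
      exact (mem_sdiff.mp (hχ1 a x)).2 (mem_image.mpr ⟨s', h, e'.symm⟩)
    · obtain ⟨h1, h2⟩ := h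
      simp only at h1 h2
      subst h1
      exact hχ2 a x x' h2

theorem exists_enum (σ t : ℕ) (h : t ≤ σ) : ∃ (M : ℕ) (R : ℕ → Finset (Fin σ)), 1 ≤ M ∧
    (∀ g, (R g).card = t) ∧ ∀ e : Finset (Fin σ), e.card = t →
      ∃ i, 1 ≤ i ∧ i + 1 ≤ M ∧ R i = e := by
  obtain ⟨R0, -, hR0⟩ := exists_subset_card_eq (s := (univ : Finset (Fin σ))) (n := t)
    (by simpa using h)
  let E : Finset (Finset (Fin σ)) := powersetCard t univ
  refine ⟨E.card + 1, fun g => if hg : g - 1 < E.card then (E.equivFin.symm ⟨g - 1, hg⟩).1 else R0,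
    by omega, ?_, ?_⟩
  · intro g
    by_cases hg : g - 1 < E.card
    · simp only [hg, dif_pos]
      exact (mem_powersetCard.mp (E.equivFin.symm ⟨g - 1, hg⟩).2).2
    · simp only [hg, dif_neg, not_false_eq_true]
      exact hR0
  · intro e he
    have hE : e ∈ E := mem_powersetCard.mpr ⟨subset_univ _, he⟩
    have hlt := (E.equivFin ⟨e, hE⟩).2
    refine ⟨(E.equivFin ⟨e, hE⟩).val + 1, by omega, by omega, ?_⟩
    simp

theorem main_type (j k ℓ : ℕ) (hj : 1 ≤ j) (hk : 1000000 * j ^ 3 ≤ k) :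
    ∃ (V : Type) (_ : Fintype V) (G : SimpleGraph V),
      (∀ L : V → Finset ℕ, (∀ v, k ≤ (L v).card) → ∀ Pal : Finset ℕ, Pal.card ≤ ℓ →
        (∀ v, L v ⊆ Pal) → ∃ φ : V → ℕ, (∀ v, φ v ∈ L v) ∧ ∀ u v, G.Adj u v → φ u ≠ φ v) ∧
      ∃ L : V → Finset ℕ, (∀ v, k + j ≤ (L v).card) ∧
        ¬ ∃ φ : V → ℕ, (∀ v, φ v ∈ L v) ∧ ∀ u v, G.Adj u v → φ u ≠ φ v := by
  obtain ⟨m, hm⟩ : ∃ m, m = 2 * j + 1 := ⟨_, rfl⟩
  obtain ⟨W, hW⟩ : ∃ W, W = 2 * (4 * m) ^ 2 := ⟨_, rfl⟩
  obtain ⟨N, hN⟩ : ∃ N, N = 80 * ((4 * m) * W) := ⟨_, rfl⟩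
  have hm3 : 4 * m ≤ 12 * j := by omega
  have hN' : N ≤ 276480 * j ^ 3 := by
    have h1 : (4 * m) ^ 3 ≤ (12 * j) ^ 3 := Nat.pow_le_pow_left hm3 3
    have h2 : N = 160 * (4 * m) ^ 3 := by rw [hN, hW]; ring
    have h3 : (12 * j) ^ 3 = 1728 * j ^ 3 := by ring
    omega
  have hWle : W ≤ (4 * m) * W := Nat.le_mul_of_pos_left _ (by omega)
  have hWm : 4 * m ≤ W := by rw [hW]; nlinarith
  have hj3 : 1 ≤ j ^ 3 := Nat.one_le_pow _ _ hj
  obtain ⟨t, ht⟩ : ∃ t, t = k - (N + 4 * m) := ⟨_, rfl⟩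
  obtain ⟨M, R, hM, hR1, hR2⟩ := exists_enum (ℓ * t + t + 1) t (by omega)
  let T : HV M m N → Finset (Fin (ℓ * t + t + 1)) := fun v => match v with
    | .inl (.inr x) => R x.1.val
    | _ => R 0
  have hT : ∀ v, (T v).card = t := by
    rintro ((x | x) | x) <;> exact hR1 _
  refine ⟨Fin (ℓ * t + t + 1) ⊕ ((Fin (ℓ * t + t + 1) → Fin (k + j)) × HV M m N), inferInstance,
    rootedGraph HAdj (fun _ _ h => h.symm) HAdj.irrefl T, ?_, ?_⟩
  · intro L hL Pal hPal hsub
    refine rooted_upper HAdj _ _ T t k ℓ (by omega) (by omega) hT ?_ L hL Pal hPal hsub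
    intro e he L' h1 h2
    obtain ⟨i, hi1, hi2, hi3⟩ := hR2 e he
    refine H_upper (i := i) (by omega) hi1 hi2 W hW hN.ge L' (fun v => le_trans (by omega) (h1 v)) ?_
    rintro (x | x) hx
    · exact absurd hx id
    · refine le_trans (by omega) (h2 (.inl (.inr x)) ?_)
      show R x.1.val = e
      rw [show x.1.val = i from hx, hi3]
  · refine rooted_lower HAdj _ _ T t (N + 4 * m + j) (k + j) (by omega) hT ?_
    intro φ h1 h2
    exact H_lower hM hm φ _ h1 (by simp) h2

end Pool.Agent.Lib.MP_583a9a_co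
end
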